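import Pool.Agent.Y80.KM.Defs2

set_option autoImplicit false

open scoped BigOperators

/-! Job JORD of project KM (helper80): identities of Jordan algebras and the Jacobi identity for
trace zero 2x2 matrices over a commutative algebra. -/

namespace Pool.Agent.Y759.KM

open Pool.Agent.Y80.KM

/-- the full linearisation of the Jordan identity -/
theorem jord_lin (k : Type*) {J : Type*} [Field k] [CharZero k] [NonUnitalNonAssocRing J]
    [Module k J] (hc : ∀ a b : J, a * b = b * a)
    (hj : ∀ a b : J, ((a * a) * b) * a = (a * a) * (b * a)) (x z w y : J) :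
    ((x * z) * y) * w + ((z * w) * y) * x + ((w * x) * y) * z
      = (x * z) * (y * w) + (z * w) * (y * x) + (w * x) * (y * z) := by
  have h0 := hj (x + z + w) y
  have h1 := hj (x + z) y
  have h2 := hj (x + w) y
  have h3 := hj (z + w) y
  have h4 := hj x y
  have h5 := hj z y
  have h6 := hj w y
  simp only [add_mul, mul_add] at h0 h1 h2 h3
  rw [hc z x, hc w x, hc w z] at h0
  rw [hc z x] at h1
  rw [hc w x] at h2
  rw [hc w z] at h3
  rw [hc w x]
  have key : (2 : k) • ((((x * z) * y) * w + ((z * w) * y) * x + ((x * w) * y) * z)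
      - ((x * z) * (y * w) + (z * w) * (y * x) + (x * w) * (y * z))) = 0 := by
    linear_combination (norm := module) (1 : k) • h0 - (1 : k) • h1 - (1 : k) • h2 - (1 : k) • h3
      + (1 : k) • h4 + (1 : k) • h5 + (1 : k) • h6
  have h2' : (2 : k) ≠ 0 := two_ne_zero
  exact sub_eq_zero.mp ((smul_eq_zero.mp key).resolve_left h2')

/-- `jdop_cyc`, with the field as an explicit argument -/
theorem jdop_cyc (k : Type*) {J : Type*} [Field k] [CharZero k] [NonUnitalNonAssocRing J]
    [Module k J] (hc : ∀ a b : J, a * b = b * a)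
    (hj : ∀ a b : J, ((a * a) * b) * a = (a * a) * (b * a)) (a b c x : J) :
    jdop (a * b) c x + jdop (b * c) a x + jdop (c * a) b x = 0 := by
  have h := jord_lin k hc hj a b c x
  simp only [jdop]
  rw [hc c ((a * b) * x), hc a ((b * c) * x), hc b ((c * a) * x), hc c x, hc a x, hc b x]
  rw [← sub_eq_zero] at h
  rw [← neg_eq_zero, ← h]
  abel

/-- `jdop_mul`, with the field as an explicit argument -/
theorem jdop_mul (k : Type*) {J : Type*} [Field k] [CharZero k] [NonUnitalNonAssocRing J]
    [Module k J] (hc : ∀ a b : J, a * b = b * a)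
    (hj : ∀ a b : J, ((a * a) * b) * a = (a * a) * (b * a)) (a b x y : J) :
    jdop a b (x * y) = jdop a b x * y + x * jdop a b y := by
  have h1 := jord_lin k hc hj x y a b
  have h2 := jord_lin k hc hj x y b a
  simp only [jdop, sub_mul, mul_sub]
  simp only [hc] at h1 h2 ⊢
  linear_combination (norm := module) (1 : k) • h1 - (1 : k) • h2

section JORD

variable {k J : Type*} [Field k] [CharZero k] [NonUnitalNonAssocRing J] [Module k J]
  [IsScalarTower k J J] [SMulCommClass k J J]

omit [CharZero k] [IsScalarTower k J J] [SMulCommClass k J J] in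
theorem jdop_skew (hc : ∀ a b : J, a * b = b * a)
    {W : Type*} [AddCommGroup W] [Module k W] (w : J →ₗ[k] J →ₗ[k] W) (hw : ∀ a, w a a = 0)
    (hcy : ∀ p q r, w (p * q) r + w (q * r) p + w (r * p) q = 0) (a b x y : J) :
    w (jdop a b x) y + w x (jdop a b y) + (w (jdop x y a) b + w a (jdop x y b)) = 0 := by
  have hs : ∀ u v, w u v = - w v u := by
    intro u v
    have h := hw (u + v)
    simp only [map_add, LinearMap.add_apply, hw, zero_add, add_zero] at h
    rw [eq_neg_iff_add_eq_zero, add_comm]
    exact h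
  have h1 := hcy a (b * x) y
  have h2 := hcy b (a * x) y
  have h3 := hcy a (b * y) x
  have h4 := hcy b (a * y) x
  simp only [jdop, map_sub, LinearMap.sub_apply]
  rw [hs x (a * (b * y)), hs x (b * (a * y)), hs a (x * (y * b)), hs a (y * (x * b))]
  rw [hs (y * a) (b * x)] at h1
  rw [hs (x * a) (b * y)] at h3
  simp only [hc] at h1 h2 h3 h4 ⊢
  linear_combination (norm := module) (1 : k) • h1 - (1 : k) • h2 - (1 : k) • h3 + (1 : k) • h4

omit [CharZero k] [IsScalarTower k J J] [SMulCommClass k J J] in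
/-- for a commutative algebra, the trace of a commutator vanishes -/
theorem cbr_two (hc : ∀ a b : J, a * b = b * a) (M M' : Matrix (Fin 2) (Fin 2) J) :
    cbr k M M' = M * M' - M' * M := by
  have ht : (M * M' - M' * M).trace = 0 := by
    rw [Matrix.trace_sub, Matrix.trace_fin_two, Matrix.trace_fin_two]
    simp only [Matrix.mul_apply, Fin.sum_univ_two]
    rw [hc (M' 0 0) (M 0 0), hc (M' 0 1) (M 1 0), hc (M' 1 0) (M 0 1), hc (M' 1 1) (M 1 1)]
    abel
  rw [cbr, ht, smul_zero]
  simp

theorem jacobi2 (hc : ∀ a b : J, a * b = b * a) (M M' M'' : Matrix (Fin 2) (Fin 2) J)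
    (h : M.trace = 0) (h' : M'.trace = 0) (h'' : M''.trace = 0) :
    (cbr k (cbr k M M') M'' + cbr k (cbr k M' M'') M + cbr k (cbr k M'' M) M') +
      (2 : k) • ((∑ i, ∑ j, M''.map (jdop (M i j) (M' j i))) +
        (∑ i, ∑ j, M.map (jdop (M' i j) (M'' j i))) +
        (∑ i, ∑ j, M'.map (jdop (M'' i j) (M j i)))) = 0 := by
  rw [Matrix.trace_fin_two] at h h' h''
  have e : M 1 1 = - M 0 0 := by rw [eq_neg_iff_add_eq_zero, add_comm]; exact h
  have e' : M' 1 1 = - M' 0 0 := by rw [eq_neg_iff_add_eq_zero, add_comm]; exact h'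
  have e'' : M'' 1 1 = - M'' 0 0 := by rw [eq_neg_iff_add_eq_zero, add_comm]; exact h''
  ext i j
  simp only [Fin.sum_univ_two, Matrix.add_apply, Matrix.smul_apply, Matrix.map_apply,
    cbr_two hc]
  fin_cases i <;> fin_cases j <;>
  simp only [Matrix.sub_apply, Matrix.mul_apply, Fin.sum_univ_two, jdop, Fin.zero_eta,
    Fin.mk_one, Fin.isValue, e, e', e'', Matrix.zero_apply, sub_mul, mul_sub, add_mul, mul_add,
    neg_mul, mul_neg, neg_neg] <;>
  generalize M 0 0 = a at * <;>
  generalize M' 0 0 = b at * <;>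
  generalize M'' 0 0 = c at * <;>
  generalize M 1 0 = a1 at * <;>
  generalize M' 1 0 = b1 at * <;>
  generalize M'' 1 0 = c1 at * <;>
  generalize M 0 1 = a2 at * <;>
  generalize M' 0 1 = b2 at * <;>
  generalize M'' 0 1 = c2 at * <;>
  simp only [hc] <;>
  module

end JORD

end Pool.Agent.Y759.KM
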